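import Mathlib

/-!
# Dynamics near a flop curve over the `p`-adic integers: definitions

`Loc`: the functions of `x` in the chart (and of the coordinate `z` along the line over `x`):
`F x z = A x * z ^ 2 + B x * z + C x` is the quadratic equation of the variety over `x`,
`xi x z` the direction of the line over the point with the coordinate `z`, and
`x - t • xi x z`, `t * kap x z = psi x z`, is the other point over the same `y`.
`Ref`: the reference configuration: `u0` and the zeros `z a` of `psi u0`. `Th a b` is the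
derivative of `F` at `u0` in the direction `xi u0 (z b)`, at `z a`; it is a unit for `a ≠ b`
except for `Th j m`, which has norm `1 / p`. `Mems`: the points of the curves.
`St i b k N x`: the function `x` on the ball of radius `p ^ (- 2)` about `z b` is a graph on the
curve `N`; the leading coefficients have norm `p ^ (- k)`, and the other root is near `z i`.
`Link`: one step. `Lin`: the linear data at the limit point.
-/

namespace Pool.Agent.Helper24.HN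

/-- Points of the chart. -/
abbrev V (p : ℕ) [Fact p.Prime] (n : ℕ) := Fin n → ℤ_[p]

/-- The local data. -/
structure Loc (p : ℕ) [Fact p.Prime] (n : ℕ) where
  /-- leading coefficient -/
  A : V p n → ℤ_[p]
  /-- middle coefficient -/
  B : V p n → ℤ_[p]
  /-- constant coefficient -/
  C : V p n → ℤ_[p]
  /-- derivative of the leading coefficient -/
  dA : V p n → V p n →ₗ[ℤ_[p]] ℤ_[p]
  /-- derivative of the middle coefficient -/
  dB : V p n → V p n →ₗ[ℤ_[p]] ℤ_[p]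
  /-- derivative of the constant coefficient -/
  dC : V p n → V p n →ₗ[ℤ_[p]] ℤ_[p]
  /-- the direction of the line over `y` -/
  xi : V p n → ℤ_[p] → V p n
  /-- the linear coefficient of the equation on the line over `y` -/
  psi : V p n → ℤ_[p] → ℤ_[p]
  /-- the quadratic coefficient of the equation on the line over `y` -/
  kap : V p n → ℤ_[p] → ℤ_[p]
  /-- the difference quotient of `psi` in `z` -/
  sl : V p n → ℤ_[p] → ℤ_[p] → ℤ_[p]
  hA : ∀ x h, ‖A (x + h) - A x - dA x h‖ ≤ ‖h‖ ^ 2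
  hB : ∀ x h, ‖B (x + h) - B x - dB x h‖ ≤ ‖h‖ ^ 2
  hC : ∀ x h, ‖C (x + h) - C x - dC x h‖ ≤ ‖h‖ ^ 2
  hdA : ∀ x h v, ‖dA (x + h) v - dA x v‖ ≤ ‖h‖ * ‖v‖
  hdB : ∀ x h v, ‖dB (x + h) v - dB x v‖ ≤ ‖h‖ * ‖v‖
  hdC : ∀ x h v, ‖dC (x + h) v - dC x v‖ ≤ ‖h‖ * ‖v‖
  hxi : ∀ x x' z z', ‖xi x z - xi x' z'‖ ≤ max ‖x - x'‖ ‖z - z'‖
  hpsi : ∀ x x' z, ‖psi x z - psi x' z‖ ≤ ‖x - x'‖
  hkap : ∀ x x' z z', ‖kap x z - kap x' z'‖ ≤ max ‖x - x'‖ ‖z - z'‖
  hsl : ∀ x z w, psi x z - psi x w = (z - w) * sl x z w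
  hsl' : ∀ x x' z z' w w', ‖sl x z w - sl x' z' w'‖ ≤ max ‖x - x'‖ (max ‖z - z'‖ ‖w - w'‖)

variable {p : ℕ} [Fact p.Prime] {n : ℕ}

namespace Loc

/-- The quadratic equation over `x`. -/
noncomputable def F (L : Loc p n) (x : V p n) (z : ℤ_[p]) : ℤ_[p] := L.A x * z ^ 2 + L.B x * z + L.C x

/-- The derivative of the equation at `x` in the direction `v`. -/
noncomputable def dF (L : Loc p n) (x v : V p n) (z : ℤ_[p]) : ℤ_[p] :=
  L.dA x v * z ^ 2 + L.dB x v * z + L.dC x v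

end Loc

/-- The reference configuration. -/
structure Ref (L : Loc p n) (J : Type) [DecidableEq J] where
  /-- the base point -/
  u0 : V p n
  /-- the zeros of `psi u0` -/
  z : J → ℤ_[p]
  /-- the root of the starting line -/
  y : J
  /-- the first index of the cycle -/
  j : J
  /-- the second index of the cycle -/
  m : J
  /-- the third index of the cycle -/
  l : J
  hjm : j ≠ m
  hml : m ≠ l
  hlj : l ≠ j
  hyj : y ≠ j
  hym : y ≠ m
  hyl : y ≠ l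
  hz : ∀ a b, a ≠ b → ‖z a - z b‖ = 1
  hpsi : ∀ a, a ≠ y → L.psi u0 (z a) = 0
  hsl : ∀ a, a ≠ y → ‖L.sl u0 (z a) (z a)‖ = 1
  hkap : ∀ a, a ≠ y → ‖L.kap u0 (z a)‖ = 1
  hT : ∀ a b, a ≠ b → (a ≠ j ∨ b ≠ m) → ‖L.dF u0 (L.xi u0 (z b)) (z a)‖ = 1
  hs : ‖L.dF u0 (L.xi u0 (z m)) (z j)‖ = (p : ℝ) ^ (-1 : ℤ)
  hA0 : ‖L.A u0‖ ≤ (p : ℝ) ^ (-2 : ℤ)
  hB0 : ‖L.B u0‖ ≤ (p : ℝ) ^ (-2 : ℤ)
  hC0 : ‖L.C u0‖ ≤ (p : ℝ) ^ (-2 : ℤ)
  hst : ‖L.A u0 * L.dF u0 (L.xi u0 (z y)) (z j) - L.dA u0 (L.xi u0 (z y)) * L.F u0 (z j)‖ =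
    (p : ℝ) ^ (-2 : ℤ)

/-- The points of the curves. -/
structure Mems (L : Loc p n) {J : Type} [DecidableEq J] (R : Ref L J) where
  /-- points after the involution over `x` -/
  Mem : ℕ → V p n → ℤ_[p] → Prop
  /-- points after the involution over `y` -/
  Mem' : ℕ → V p n → ℤ_[p] → Prop
  on : ∀ N x z, Mem N x z → L.F x z = 0
  on' : ∀ N x z, Mem' N x z → L.F x z = 0
  line : ∀ t : ℤ_[p], ‖t‖ ≤ (p : ℝ) ^ (-2 : ℤ) → L.F (R.u0 + t • L.xi R.u0 (R.z R.y)) (R.z R.y) = 0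
  start : ∀ t w : ℤ_[p], ‖t‖ ≤ (p : ℝ) ^ (-2 : ℤ) → L.A (R.u0 + t • L.xi R.u0 (R.z R.y)) ≠ 0 →
    (∀ v, L.F (R.u0 + t • L.xi R.u0 (R.z R.y)) v =
      L.A (R.u0 + t • L.xi R.u0 (R.z R.y)) * (v - R.z R.y) * (v - w)) →
    Mem 0 (R.u0 + t • L.xi R.u0 (R.z R.y)) w
  inv2 : ∀ N x z t, ‖x - R.u0‖ ≤ (p : ℝ) ^ (-2 : ℤ) → Mem N x z → ‖L.kap x z‖ = 1 →
    t * L.kap x z = L.psi x z → Mem' N (x - t • L.xi x z) z
  rel : ∀ x z, ‖x - R.u0‖ ≤ (p : ℝ) ^ (-2 : ℤ) → L.A x = 0 → L.B x = 0 → L.C x = 0 →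
    L.dF x (L.xi x z) z = L.psi x z
  inv1 : ∀ N x z w, ‖x - R.u0‖ ≤ (p : ℝ) ^ (-2 : ℤ) → Mem' N x z → L.A x ≠ 0 →
    (∀ v, L.F x v = L.A x * (v - z) * (v - w)) → Mem (N + 1) x w

/-- A graph over the ball about `z b`. -/
structure St {L : Loc p n} {J : Type} [DecidableEq J] {R : Ref L J} (M : Mems L R) (i b : J)
    (k N : ℕ) (x : ℤ_[p] → V p n) : Prop where
  hib : i ≠ b
  hk : 2 ≤ k
  ball : ∀ z, ‖z - R.z b‖ ≤ (p : ℝ) ^ (-2 : ℤ) → ‖x z - R.u0‖ ≤ (p : ℝ) ^ (-2 : ℤ)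
  mem : ∀ z, ‖z - R.z b‖ ≤ (p : ℝ) ^ (-2 : ℤ) → M.Mem N (x z) z
  lead : ∀ z, ‖z - R.z b‖ ≤ (p : ℝ) ^ (-2 : ℤ) → ‖L.A (x z)‖ = (p : ℝ) ^ (-k : ℤ)
  lip : ∀ z w, ‖z - R.z b‖ ≤ (p : ℝ) ^ (-2 : ℤ) → ‖w - R.z b‖ ≤ (p : ℝ) ^ (-2 : ℤ) →
    ‖x z - x w‖ ≤ (p : ℝ) ^ (-k : ℤ) * ‖z - w‖
  rt : ∀ z, ‖z - R.z b‖ ≤ (p : ℝ) ^ (-2 : ℤ) → ∃ r, ‖r - R.z i‖ ≤ (p : ℝ) ^ (-2 : ℤ) ∧
    ∀ v, L.F (x z) v = L.A (x z) * (v - z) * (v - r)

/-- One step from the graph `x` over the ball about `z b` to the graph `x'` over the ball about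
`z c`. -/
def Link {L : Loc p n} {J : Type} [DecidableEq J] (R : Ref L J) (k : ℕ) (b c : J)
    (x x' : ℤ_[p] → V p n) : Prop :=
  ∀ w, ‖w - R.z c‖ ≤ (p : ℝ) ^ (-2 : ℤ) → ∃ z t, ‖z - R.z b‖ ≤ (p : ℝ) ^ (-2 : ℤ) ∧
    ‖t‖ ≤ (p : ℝ) ^ (-k : ℤ) ∧ t * L.kap (x z) z = L.psi (x z) z ∧
    x' w = x z - t • L.xi (x z) z

/-- The steps which are used. -/
def Ok {L : Loc p n} {J : Type} [DecidableEq J] (R : Ref L J) (b c : J) : Prop :=
  b ≠ c ∧ b ≠ R.y ∧ c ≠ R.y ∧ (b ≠ R.m ∨ c ≠ R.j)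

/-- The contraction exponent. -/
def ex {L : Loc p n} {J : Type} [DecidableEq J] (R : Ref L J) (i b : J) : ℕ :=
  if i = R.j ∧ b = R.m then 1 else 0

/-- Paths of steps which are used. -/
def OkP {L : Loc p n} {J : Type} [DecidableEq J] (R : Ref L J) : J → List J → Prop
  | _, [] => True
  | b, c :: P => Ok R b c ∧ OkP R c P

/-- The last index of a path. -/
def lst {J : Type} : J → List J → J
  | b, [] => b
  | _, c :: P => lst c P

/-- The linear data at the limit point. -/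
structure Lin (K : Type*) [Field K] (n : ℕ) (J : Type) where
  /-- leading coefficients -/
  qa : Fin n → K
  /-- middle coefficients -/
  qb : Fin n → K
  /-- constant coefficients -/
  qc : Fin n → K
  /-- the zeros -/
  ζ : J → K
  /-- the directions -/
  v : J → Fin n → K

namespace Lin

variable {K : Type*} [Field K] {J : Type}

/-- The leading coefficient of the quadratic polynomial of a tangent vector. -/
def ld (D : Lin K n J) (X : Fin n → K) : K := ∑ i, D.qa i * X i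

/-- The quadratic polynomial of a tangent vector. -/
def phi (D : Lin K n J) (w : K) (X : Fin n → K) : K :=
  ∑ i, (D.qa i * w ^ 2 + D.qb i * w + D.qc i) * X i

/-- The projection along `v b` to the kernel of `phi w`. -/
def T (D : Lin K n J) (b : J) (w : K) (X : Fin n → K) : Fin n → K :=
  X - (D.phi w X / D.phi w (D.v b)) • D.v b

/-- The composition along a path. -/
def Tp (D : Lin K n J) : J → List J → (Fin n → K) → Fin n → K
  | _, [], X => X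
  | b, c :: P, X => Tp D c P (D.T b (D.ζ c) X)

end Lin

/-- The point with coordinates in the field. -/
def cst (x : V p n) : Fin n → ℚ_[p] := fun i => (x i : ℚ_[p])

/-- The linear data at the point `x1`. -/
noncomputable def lin (L : Loc p n) {J : Type} (x1 : V p n) (ζ : J → ℤ_[p]) : Lin ℚ_[p] n J where
  qa := fun i => (L.dA x1 (Pi.single i 1) : ℚ_[p])
  qb := fun i => (L.dB x1 (Pi.single i 1) : ℚ_[p])
  qc := fun i => (L.dC x1 (Pi.single i 1) : ℚ_[p])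
  ζ := fun a => (ζ a : ℚ_[p])
  v := fun a => cst (L.xi x1 (ζ a))

end Pool.Agent.Helper24.HN
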