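import Pool.Agent.Helper24.HN.Defs

/-!
# Dynamics near a flop curve: estimates
-/

namespace Pool.Agent.Helper24.HN

variable {p : ℕ} [Fact p.Prime] {n : ℕ}

section ultra

variable {E : Type*} [SeminormedAddCommGroup E] [IsUltrametricDist E]

theorem add_le' {a b : E} {r : ℝ} (ha : ‖a‖ ≤ r) (hb : ‖b‖ ≤ r) : ‖a + b‖ ≤ r :=
  (IsUltrametricDist.norm_add_le_max a b).trans (max_le ha hb)

theorem sub_le' {a b : E} {r : ℝ} (ha : ‖a‖ ≤ r) (hb : ‖b‖ ≤ r) : ‖a - b‖ ≤ r := by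
  rw [sub_eq_add_neg]
  exact add_le' ha (by rwa [norm_neg])

/-- Three points. -/
theorem tri_le {a b c : E} {r : ℝ} (h1 : ‖a - b‖ ≤ r) (h2 : ‖b - c‖ ≤ r) : ‖a - c‖ ≤ r := by
  have := add_le' h1 h2
  rwa [sub_add_sub_cancel] at this

theorem norm_eq_of_sub_lt {a b : E} {r : ℝ} (h : ‖a - b‖ < r) (hb : ‖b‖ = r) : ‖a‖ = r := by
  have h1 : ‖a‖ ≤ r := by
    have := add_le' h.le hb.le
    rwa [sub_add_cancel] at this
  rcases h1.lt_or_eq with h2 | h2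
  · exfalso
    have h3 : ‖b‖ ≤ max ‖a‖ ‖a - b‖ := by
      have := sub_le' (le_max_left ‖a‖ ‖a - b‖) (le_max_right ‖a‖ ‖a - b‖)
      rwa [sub_sub_cancel] at this
    rw [hb] at h3
    exact absurd (max_lt h2 h) (not_lt.mpr h3)
  · exact h2

end ultra

theorem mul_le' {a b : ℤ_[p]} {r s : ℝ} (ha : ‖a‖ ≤ r) (hb : ‖b‖ ≤ s) : ‖a * b‖ ≤ r * s := by
  rw [norm_mul]
  exact mul_le_mul ha hb (norm_nonneg _) ((norm_nonneg _).trans ha)

theorem mul_le_left {a b : ℤ_[p]} {r : ℝ} (ha : ‖a‖ ≤ r) : ‖a * b‖ ≤ r := by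
  have := mul_le' ha (PadicInt.norm_le_one b)
  rwa [mul_one] at this

theorem mul_le_right {a b : ℤ_[p]} {r : ℝ} (ha : ‖b‖ ≤ r) : ‖a * b‖ ≤ r := by
  rw [mul_comm]
  exact mul_le_left ha

theorem norm_le_one_V (v : V p n) : ‖v‖ ≤ 1 :=
  (pi_norm_le_iff_of_nonneg zero_le_one).mpr fun i => PadicInt.norm_le_one _

theorem smul_le {a : ℤ_[p]} {v : V p n} {r s : ℝ} (ha : ‖a‖ ≤ r) (hv : ‖v‖ ≤ s) :
    ‖a • v‖ ≤ r * s :=
  (norm_smul_le a v).trans (mul_le_mul ha hv (norm_nonneg _) ((norm_nonneg _).trans ha))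

theorem smul_le_left {a : ℤ_[p]} {v : V p n} {r : ℝ} (ha : ‖a‖ ≤ r) : ‖a • v‖ ≤ r := by
  have := smul_le ha (norm_le_one_V v)
  rwa [mul_one] at this

theorem lin_le (f : V p n →ₗ[ℤ_[p]] ℤ_[p]) (v : V p n) : ‖f v‖ ≤ ‖v‖ := by
  rw [LinearMap.pi_apply_eq_sum_univ f v]
  refine IsUltrametricDist.norm_sum_le_of_forall_le_of_nonneg (norm_nonneg _) fun i _ => ?_
  rw [smul_eq_mul]
  exact mul_le_left (norm_le_pi_norm v i)

theorem pow_two_le : ((p : ℝ) ^ (-2 : ℤ)) < 1 := by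
  have : (1 : ℝ) < p := by exact_mod_cast (Fact.out : p.Prime).one_lt
  exact zpow_lt_one_of_neg₀ this (by norm_num)

theorem zpk_pos (k : ℤ) : 0 < (p : ℝ) ^ k := by
  have : (0 : ℝ) < p := by exact_mod_cast (Fact.out : p.Prime).pos
  positivity

theorem zpk_le {k l : ℤ} (h : k ≤ l) : (p : ℝ) ^ k ≤ (p : ℝ) ^ l := by
  have : (1 : ℝ) < p := by exact_mod_cast (Fact.out : p.Prime).one_lt
  exact zpow_le_zpow_right₀ this.le h

theorem zpk_lt {k l : ℤ} (h : k < l) : (p : ℝ) ^ k < (p : ℝ) ^ l := by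
  have : (1 : ℝ) < p := by exact_mod_cast (Fact.out : p.Prime).one_lt
  exact zpow_lt_zpow_right₀ this h

theorem zpk_add (k l : ℤ) : (p : ℝ) ^ (k + l) = (p : ℝ) ^ k * (p : ℝ) ^ l := by
  have : (p : ℝ) ≠ 0 := by exact_mod_cast (Fact.out : p.Prime).ne_zero
  exact zpow_add₀ this k l

theorem zpk_le_one {k : ℤ} (h : k ≤ 0) : (p : ℝ) ^ k ≤ 1 := by
  have := zpk_le (p := p) h
  rwa [zpow_zero] at this

namespace Loc

variable (L : Loc p n)

theorem dF_add (x v w : V p n) (z : ℤ_[p]) : L.dF x (v + w) z = L.dF x v z + L.dF x w z := by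
  simp only [dF, map_add]
  ring

theorem dF_sub (x v w : V p n) (z : ℤ_[p]) : L.dF x (v - w) z = L.dF x v z - L.dF x w z := by
  simp only [dF, map_sub]
  ring

theorem dF_neg (x v : V p n) (z : ℤ_[p]) : L.dF x (-v) z = - L.dF x v z := by
  simp only [dF, map_neg]
  ring

theorem dF_smul (x v : V p n) (a z : ℤ_[p]) : L.dF x (a • v) z = a * L.dF x v z := by
  simp only [dF, map_smul, smul_eq_mul]
  ring

theorem dF_le (x v : V p n) (z : ℤ_[p]) : ‖L.dF x v z‖ ≤ ‖v‖ := by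
  unfold dF
  exact add_le' (add_le' (mul_le_left (lin_le _ v)) (mul_le_left (lin_le _ v))) (lin_le _ v)

theorem dF_x (x x' v : V p n) (z : ℤ_[p]) : ‖L.dF x v z - L.dF x' v z‖ ≤ ‖x - x'‖ * ‖v‖ := by
  have e : x = x' + (x - x') := by abel
  have hA := L.hdA x' (x - x') v
  have hB := L.hdB x' (x - x') v
  have hC := L.hdC x' (x - x') v
  rw [← e] at hA hB hC
  have : L.dF x v z - L.dF x' v z = (L.dA x v - L.dA x' v) * z ^ 2 + (L.dB x v - L.dB x' v) * z +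
      (L.dC x v - L.dC x' v) := by
    unfold dF
    ring
  rw [this]
  exact add_le' (add_le' (mul_le_left hA) (mul_le_left hB)) hC

theorem dF_z (x v : V p n) (z z' : ℤ_[p]) : ‖L.dF x v z - L.dF x v z'‖ ≤ ‖v‖ * ‖z - z'‖ := by
  have : L.dF x v z - L.dF x v z' = (L.dA x v * (z + z') + L.dB x v) * (z - z') := by
    unfold dF
    ring
  rw [this]
  exact mul_le' (add_le' (mul_le_left (lin_le _ v)) (lin_le _ v)) le_rfl

/-- The derivative depends continuously on everything. -/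
theorem dF_near (x x' v v' : V p n) (z z' : ℤ_[p]) {r : ℝ} (hx : ‖x - x'‖ ≤ r)
    (hv : ‖v - v'‖ ≤ r) (hz : ‖z - z'‖ ≤ r) : ‖L.dF x v z - L.dF x' v' z'‖ ≤ r := by
  have h1 : ‖L.dF x v z - L.dF x' v z‖ ≤ r :=
    (L.dF_x x x' v z).trans ((mul_le_of_le_one_right (norm_nonneg _) (norm_le_one_V v)).trans hx)
  have h2 : ‖L.dF x' v z - L.dF x' v' z‖ ≤ r := by
    rw [← dF_sub]
    exact (L.dF_le _ _ _).trans hv
  have h3 : ‖L.dF x' v' z - L.dF x' v' z'‖ ≤ r :=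
    (L.dF_z x' v' z z').trans ((mul_le_of_le_one_left (norm_nonneg _) (norm_le_one_V v')).trans hz)
  exact tri_le h1 (tri_le h2 h3)

theorem F_x (x h : V p n) (z : ℤ_[p]) : ‖L.F (x + h) z - L.F x z - L.dF x h z‖ ≤ ‖h‖ ^ 2 := by
  have : L.F (x + h) z - L.F x z - L.dF x h z = (L.A (x + h) - L.A x - L.dA x h) * z ^ 2 +
      (L.B (x + h) - L.B x - L.dB x h) * z + (L.C (x + h) - L.C x - L.dC x h) := by
    unfold F dF
    ring
  rw [this]
  exact add_le' (add_le' (mul_le_left (L.hA x h)) (mul_le_left (L.hB x h))) (L.hC x h)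

theorem F_x' (x x' : V p n) (z : ℤ_[p]) :
    ‖L.F x' z - L.F x z - L.dF x (x' - x) z‖ ≤ ‖x' - x‖ ^ 2 := by
  have := L.F_x x (x' - x) z
  rwa [add_sub_cancel] at this

theorem F_lip (x x' : V p n) (z : ℤ_[p]) : ‖L.F x' z - L.F x z‖ ≤ ‖x' - x‖ := by
  have h1 := L.F_x' x x' z
  have h2 : ‖x' - x‖ ^ 2 ≤ ‖x' - x‖ := by
    rw [sq]
    exact mul_le_of_le_one_left (norm_nonneg _) (norm_le_one_V _)
  have := add_le' (h1.trans h2) (L.dF_le x (x' - x) z)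
  rwa [sub_add_cancel] at this

theorem F_z (x : V p n) (z z' : ℤ_[p]) : ‖L.F x z - L.F x z'‖ ≤ ‖z - z'‖ := by
  have : L.F x z - L.F x z' = (L.A x * (z + z') + L.B x) * (z - z') := by
    unfold F
    ring
  rw [this]
  exact mul_le_right le_rfl

theorem A_x' (x x' : V p n) : ‖L.A x' - L.A x - L.dA x (x' - x)‖ ≤ ‖x' - x‖ ^ 2 := by
  have := L.hA x (x' - x)
  rwa [add_sub_cancel] at this

end Loc

theorem cast_sum (f : Fin n → ℤ_[p]) : ((∑ i, f i : ℤ_[p]) : ℚ_[p]) = ∑ i, (f i : ℚ_[p]) :=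
  map_sum (PadicInt.Coe.ringHom (p := p)) f Finset.univ

theorem lin_sum (f : V p n →ₗ[ℤ_[p]] ℤ_[p]) (v : V p n) :
    ((f v : ℤ_[p]) : ℚ_[p]) = ∑ i, (f (Pi.single i 1) : ℚ_[p]) * cst v i := by
  have h : f v = ∑ i, f (Pi.single i 1) * v i := by
    conv_lhs => rw [← Finset.univ_sum_single v, map_sum]
    refine Finset.sum_congr rfl fun i _ => ?_
    have : (Pi.single i (v i) : V p n) = v i • Pi.single i 1 := by
      rw [← Pi.single_smul, smul_eq_mul, mul_one]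
    rw [this, map_smul, smul_eq_mul, mul_comm]
  rw [h, cast_sum]
  refine Finset.sum_congr rfl fun i _ => ?_
  rw [PadicInt.coe_mul]
  rfl

/-- The linear form `phi`. -/
theorem lin_phi (L : Loc p n) {J : Type} (x1 : V p n) (ζ : J → ℤ_[p]) (w : ℤ_[p]) (v : V p n) :
    (lin L x1 ζ).phi (w : ℚ_[p]) (cst v) = ((L.dF x1 v w : ℤ_[p]) : ℚ_[p]) := by
  rw [Loc.dF]
  rw [PadicInt.coe_add, PadicInt.coe_add, PadicInt.coe_mul, PadicInt.coe_mul, PadicInt.coe_pow,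
    lin_sum (L.dA x1), lin_sum (L.dB x1), lin_sum (L.dC x1)]
  rw [Lin.phi, Finset.sum_mul, Finset.sum_mul, ← Finset.sum_add_distrib,
    ← Finset.sum_add_distrib]
  refine Finset.sum_congr rfl fun i _ => ?_
  simp only [lin]
  ring

theorem lin_ld (L : Loc p n) {J : Type} (x1 : V p n) (ζ : J → ℤ_[p]) (v : V p n) :
    (lin L x1 ζ).ld (cst v) = ((L.dA x1 v : ℤ_[p]) : ℚ_[p]) := by
  rw [lin_sum (L.dA x1)]
  rfl

theorem cst_sub (v w : V p n) : cst (v - w) = cst v - cst w := by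
  funext i
  simp [cst]

theorem cst_add (v w : V p n) : cst (v + w) = cst v + cst w := by
  funext i
  simp [cst]

theorem cst_smul (a : ℤ_[p]) (w : V p n) : cst (a • w) = (a : ℚ_[p]) • cst w := by
  funext i
  simp [cst]

theorem cst_norm (v : V p n) : ‖cst v‖ = ‖v‖ := by
  apply le_antisymm
  · refine (pi_norm_le_iff_of_nonneg (norm_nonneg _)).mpr fun i => ?_
    exact norm_le_pi_norm v i
  · refine (pi_norm_le_iff_of_nonneg (norm_nonneg _)).mpr fun i => ?_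
    exact norm_le_pi_norm (cst v) i

end Pool.Agent.Helper24.HN
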