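import Pool.Agent.Helper24.HN.Path

/-!
# Dynamics near a flop curve: the eigenvector
-/

namespace Pool.Agent.Helper24.HN

open Filter Topology

variable {p : ℕ} [Fact p.Prime] {n : ℕ}

theorem ld_sub' {J : Type} (D : Lin ℚ_[p] n J) (X Y : Fin n → ℚ_[p]) :
    D.ld (X - Y) = D.ld X - D.ld Y := by
  simp only [Lin.ld, Pi.sub_apply, mul_sub, Finset.sum_sub_distrib]

theorem ld_add' {J : Type} (D : Lin ℚ_[p] n J) (X Y : Fin n → ℚ_[p]) :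
    D.ld (X + Y) = D.ld X + D.ld Y := by
  simp only [Lin.ld, Pi.add_apply, mul_add, Finset.sum_add_distrib]

theorem ld_smul' {J : Type} (D : Lin ℚ_[p] n J) (c : ℚ_[p]) (Z : Fin n → ℚ_[p]) :
    D.ld (c • Z) = c * D.ld Z := by
  simp only [Lin.ld, Pi.smul_apply, smul_eq_mul, Finset.mul_sum]
  exact Finset.sum_congr rfl fun i _ => by ring

theorem ld_le {J : Type} (D : Lin ℚ_[p] n J) (hqa : ∀ i, ‖D.qa i‖ ≤ 1) (X : Fin n → ℚ_[p]) :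
    ‖D.ld X‖ ≤ ‖X‖ := by
  unfold Lin.ld
  refine IsUltrametricDist.norm_sum_le_of_forall_le_of_nonneg (norm_nonneg _) fun i _ => ?_
  rw [norm_mul]
  exact (mul_le_mul (hqa i) (norm_le_pi_norm X i) (norm_nonneg _) zero_le_one).trans (one_mul _).le

/-- The quadratic polynomial by three values. -/
theorem phi_eq {J : Type} (D : Lin ℚ_[p] n J) (X : Fin n → ℚ_[p]) (a b w : ℚ_[p]) (hab : a ≠ b) :
    D.phi w X = D.ld X * (w - a) * (w - b) + (D.phi a X * (w - b) - D.phi b X * (w - a)) /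
      (a - b) := by
  have h : ∀ w, D.phi w X = D.ld X * w ^ 2 + (∑ i, D.qb i * X i) * w + ∑ i, D.qc i * X i := by
    intro w
    simp only [Lin.phi, Lin.ld, Finset.sum_mul, ← Finset.sum_add_distrib]
    exact Finset.sum_congr rfl fun i _ => by ring
  have h0 : a - b ≠ 0 := sub_ne_zero.mpr hab
  rw [h w, h a, h b]
  field_simp
  ring

theorem eigen {J : Type} (D : Lin ℚ_[p] n J) (j m l : J) (hqa : ∀ i, ‖D.qa i‖ ≤ 1)
    (hqb : ∀ i, ‖D.qb i‖ ≤ 1) (hqc : ∀ i, ‖D.qc i‖ ≤ 1) (hζ : ∀ a, ‖D.ζ a‖ ≤ 1)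
    (hv : ∀ a, ‖D.v a‖ ≤ 1) (hj : D.phi (D.ζ j) (D.v j) = 0) (hm : D.phi (D.ζ m) (D.v m) = 0)
    (hl : D.phi (D.ζ l) (D.v l) = 0) (hjm : ‖D.phi (D.ζ m) (D.v j)‖ = 1)
    (hml : ‖D.phi (D.ζ l) (D.v m)‖ = 1) (hlj : ‖D.phi (D.ζ j) (D.v l)‖ = 1)
    (hlj' : ‖D.ζ l - D.ζ j‖ = 1) (k0 : ℕ) (hk : 3 ≤ k0) (X : ℕ → Fin n → ℚ_[p])
    (hX : ∀ N, ‖X N‖ ≤ (p : ℝ) ^ (-(k0 + N : ℕ) : ℤ))
    (hld : ∀ N, ‖D.ld (X N)‖ = (p : ℝ) ^ (-(k0 + N : ℕ) : ℤ))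
    (hst : ∀ N, ‖X (N + 1) - D.Tp j [m, l, j] (X N)‖ ≤ (p : ℝ) ^ (-(2 * (k0 + N : ℕ)) : ℤ)) :
    ∃ (e : Fin n → ℚ_[p]) (ρ : ℚ_[p]), D.phi (D.ζ l) e = 0 ∧ D.phi (D.ζ j) e = 0 ∧
      D.ld e = 1 ∧ D.Tp j [m, l, j] e = ρ • e ∧ ‖ρ‖ = (p : ℝ) ^ (-1 : ℤ) ∧ ‖e‖ ≤ 1 ∧
      Tendsto (fun N => (D.ld (X N))⁻¹ • X N) atTop (𝓝 e) := by
  have hljne : D.ζ l ≠ D.ζ j := by
    intro h
    rw [h, sub_self, norm_zero] at hlj'
    exact zero_ne_one hlj'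
  obtain ⟨T, hT⟩ : ∃ T : (Fin n → ℚ_[p]) → Fin n → ℚ_[p], T = D.Tp j [m, l, j] := ⟨_, rfl⟩
  have hTsub : ∀ X Y, T (X - Y) = T X - T Y := by
    intro X Y
    rw [hT, Lin.Tp_sub]
  have hTsmul : ∀ (c : ℚ_[p]) X, T (c • X) = c • T X := by
    intro c X
    rw [hT, Lin.Tp_smul]
  have hTe : ∀ X, T X = D.T l (D.ζ j) (D.T m (D.ζ l) (D.T j (D.ζ m) X)) := by
    intro X
    rw [hT]
    rfl
  have ne_of : ∀ {a : ℚ_[p]}, ‖a‖ = 1 → a ≠ 0 := by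
    rintro a ha rfl
    rw [norm_zero] at ha
    exact zero_ne_one ha
  have hphiT : ∀ (b : J) (w : ℚ_[p]) X, D.phi w (D.v b) ≠ 0 → D.phi w (D.T b w X) = 0 := by
    intro b w X h
    rw [Lin.T, Lin.phi_sub, Lin.phi_smul, div_mul_cancel₀ _ h, sub_self]
  have hTj : ∀ X, D.phi (D.ζ j) (T X) = 0 := by
    intro X
    rw [hTe]
    exact hphiT _ _ _ (ne_of hlj)
  have hTl : ∀ X, D.phi (D.ζ l) (T X) = 0 := by
    intro X
    rw [hTe, Lin.T, Lin.phi_sub, Lin.phi_smul, hl, mul_zero, sub_zero]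
    exact hphiT _ _ _ (ne_of hml)
  have hTle : ∀ X, ‖T X‖ ≤ ‖X‖ := by
    intro X
    rw [hTe]
    exact ((T_le D hqa hqb hqc (hζ j) (hv l) hlj _).trans
      (T_le D hqa hqb hqc (hζ l) (hv m) hml _)).trans (T_le D hqa hqb hqc (hζ m) (hv j) hjm _)
  -- almost fixed vectors
  have hTfix : ∀ X (r : ℝ), 0 ≤ r → D.ld X = 0 → ‖D.phi (D.ζ l) X‖ ≤ r → ‖D.phi (D.ζ j) X‖ ≤ r →
      ‖T X - X‖ ≤ r := by
    intro X r hr h0 h1 h2
    have hph : ∀ w : ℚ_[p], ‖w‖ ≤ 1 → ‖D.phi w X‖ ≤ r := by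
      intro w hw
      rw [phi_eq D X (D.ζ l) (D.ζ j) w hljne, h0, zero_mul, zero_mul, zero_add, norm_div, hlj',
        div_one]
      have hwj : ‖w - D.ζ j‖ ≤ 1 := sub_le' hw (hζ j)
      have hwl : ‖w - D.ζ l‖ ≤ 1 := sub_le' hw (hζ l)
      refine sub_le' ?_ ?_
      · rw [norm_mul]
        exact (mul_le_mul h1 hwj (norm_nonneg _) hr).trans (mul_one _).le
      · rw [norm_mul]
        exact (mul_le_mul h2 hwl (norm_nonneg _) hr).trans (mul_one _).le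
    have hTb : ∀ (b : J) (w : ℚ_[p]) (Z : Fin n → ℚ_[p]), ‖D.phi w (D.v b)‖ = 1 →
        ‖D.phi w Z‖ ≤ r → ‖D.T b w Z - Z‖ ≤ r := by
      intro b w Z hu hZ
      rw [Lin.T, sub_sub_cancel_left, norm_neg]
      refine (norm_smul_le _ _).trans ?_
      rw [norm_div, hu, div_one]
      exact (mul_le_mul hZ (hv b) (norm_nonneg _) hr).trans (mul_one _).le
    have near : ∀ (w : ℚ_[p]) (Z : Fin n → ℚ_[p]), ‖w‖ ≤ 1 → ‖Z - X‖ ≤ r → ‖D.phi w Z‖ ≤ r := by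
      intro w Z hw hZ
      have := add_le' ((phi_le D hqa hqb hqc hw (Z - X)).trans hZ) (hph w hw)
      rwa [← Lin.phi_add, sub_add_cancel] at this
    have a1 := hTb j (D.ζ m) X hjm (hph _ (hζ m))
    have a2 := hTb m (D.ζ l) (D.T j (D.ζ m) X) hml (near _ _ (hζ l) a1)
    have a3 := tri_le a2 a1
    have a4 := hTb l (D.ζ j) (D.T m (D.ζ l) (D.T j (D.ζ m) X)) hlj (near _ _ (hζ j) a3)
    rw [hTe]
    exact tri_le a4 a3
  rw [← hT] at hst ⊢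
  have e2 : ∀ N : ℕ, (p : ℝ) ^ (-(2 * (k0 + N : ℕ)) : ℤ) < (p : ℝ) ^ (-(k0 + (N + 2) : ℕ) : ℤ) :=
    fun N => zpk_lt (by push_cast; omega)
  -- the vector `Y`
  obtain ⟨Y, hY⟩ : ∃ Y, Y = T (X 0) := ⟨_, rfl⟩
  have hY1 : ‖Y - X 1‖ ≤ (p : ℝ) ^ (-(2 * (k0 + 0 : ℕ)) : ℤ) := by
    rw [hY, norm_sub_rev]
    exact hst 0
  have hldY : ‖D.ld Y‖ = (p : ℝ) ^ (-(k0 + 1 : ℕ) : ℤ) := by
    refine norm_eq_of_sub_lt (b := D.ld (X 1)) ?_ (hld 1)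
    rw [← ld_sub']
    refine ((ld_le D hqa _).trans hY1).trans_lt ((e2 0).trans_le (zpk_le ?_))
    push_cast
    omega
  have hYn : ‖Y‖ ≤ (p : ℝ) ^ (-(k0 + 1 : ℕ) : ℤ) := by
    have h1 : ‖Y - X 1‖ ≤ (p : ℝ) ^ (-(k0 + 1 : ℕ) : ℤ) :=
      hY1.trans ((e2 0).le.trans (zpk_le (by push_cast; omega)))
    have := add_le' h1 (hX 1)
    rwa [sub_add_cancel] at this
  have hTY : ‖T Y - X 2‖ ≤ (p : ℝ) ^ (-(2 * (k0 + 0 : ℕ)) : ℤ) := by
    have h1 : ‖T Y - T (X 1)‖ ≤ (p : ℝ) ^ (-(2 * (k0 + 0 : ℕ)) : ℤ) := by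
      rw [← hTsub]
      exact (hTle _).trans hY1
    have h2 := hst 1
    rw [norm_sub_rev] at h2
    exact tri_le h1 (h2.trans (zpk_le (by push_cast; omega)))
  have hldTY : ‖D.ld (T Y)‖ = (p : ℝ) ^ (-(k0 + 2 : ℕ) : ℤ) := by
    refine norm_eq_of_sub_lt (b := D.ld (X 2)) ?_ (hld 2)
    rw [← ld_sub']
    exact ((ld_le D hqa _).trans hTY).trans_lt (e2 0)
  have hy0 : D.ld Y ≠ 0 := by
    intro h
    rw [h, norm_zero] at hldY
    exact (zpk_pos _).ne hldY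
  obtain ⟨ρ, hρ⟩ : ∃ ρ, ρ = D.ld (T Y) / D.ld Y := ⟨_, rfl⟩
  have hρn : ‖ρ‖ = (p : ℝ) ^ (-1 : ℤ) := by
    rw [hρ, norm_div, hldTY, hldY, ← zpow_sub₀ (by exact_mod_cast (Fact.out : p.Prime).ne_zero)]
    congr 1
    push_cast
    ring
  have hρ1 : ‖ρ - 1‖ = 1 := by
    rw [norm_sub_rev]
    refine norm_eq_of_sub_lt (b := (1 : ℚ_[p])) ?_ norm_one
    rw [sub_sub_cancel_left, norm_neg, hρn]
    have := zpk_lt (p := p) (k := -1) (l := 0) (by norm_num)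
    rwa [zpow_zero] at this
  obtain ⟨κ, hκ⟩ : ∃ κ, κ = T Y - ρ • Y := ⟨_, rfl⟩
  have hYl : D.phi (D.ζ l) Y = 0 := by rw [hY]; exact hTl _
  have hYj : D.phi (D.ζ j) Y = 0 := by rw [hY]; exact hTj _
  have hκl : D.phi (D.ζ l) κ = 0 := by
    rw [hκ, Lin.phi_sub, Lin.phi_smul, hTl, hYl, mul_zero, sub_zero]
  have hκj : D.phi (D.ζ j) κ = 0 := by
    rw [hκ, Lin.phi_sub, Lin.phi_smul, hTj, hYj, mul_zero, sub_zero]
  have hκ0 : D.ld κ = 0 := by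
    rw [hκ, ld_sub', ld_smul', hρ, div_mul_cancel₀ _ hy0, sub_self]
  have hκT : T κ = κ := by
    have := hTfix κ 0 le_rfl hκ0 (by rw [hκl, norm_zero]) (by rw [hκj, norm_zero])
    exact sub_eq_zero.mp (norm_eq_zero.mp (le_antisymm this (norm_nonneg _)))
  have hκn : ‖κ‖ ≤ (p : ℝ) ^ (-(k0 + 1 : ℕ) : ℤ) := by
    rw [hκ]
    refine sub_le' ((hTle _).trans hYn) ((norm_smul_le _ _).trans ?_)
    rw [hρn]
    exact (mul_le_of_le_one_left (norm_nonneg _) (zpk_le_one (by norm_num))).trans hYn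
  obtain ⟨e, he⟩ : ∃ e, e = (D.ld Y)⁻¹ • (Y + (ρ - 1)⁻¹ • κ) := ⟨_, rfl⟩
  have hρ0 : ρ - 1 ≠ 0 := ne_of hρ1
  have hTadd : ∀ X Y, T (X + Y) = T X + T Y := by
    intro X Y
    have := hTsub X (-Y)
    have h2 := hTsmul (-1) Y
    rw [neg_one_smul, neg_one_smul] at h2
    rw [h2, sub_neg_eq_add, sub_neg_eq_add] at this
    exact this
  have heT : T e = ρ • e := by
    rw [he, hTsmul, hTadd, hTsmul, hκT, smul_comm ρ]
    congr 1
    have e1 : T Y = ρ • Y + κ := by rw [hκ]; abel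
    rw [e1, smul_add, smul_smul, add_assoc]
    congr 1
    have e3 : ρ * (ρ - 1)⁻¹ = 1 + (ρ - 1)⁻¹ := by
      field_simp
      ring
    rw [e3, add_smul, one_smul]
  have he1 : D.ld e = 1 := by
    rw [he, ld_smul', ld_add', ld_smul', hκ0, mul_zero, add_zero, inv_mul_cancel₀ hy0]
  have hel : D.phi (D.ζ l) e = 0 := by
    rw [he, Lin.phi_smul, Lin.phi_add, Lin.phi_smul, hYl, hκl]
    ring
  have hej : D.phi (D.ζ j) e = 0 := by
    rw [he, Lin.phi_smul, Lin.phi_add, Lin.phi_smul, hYj, hκj]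
    ring
  have hen : ‖e‖ ≤ 1 := by
    rw [he]
    refine (norm_smul_le _ _).trans ?_
    have h1 : ‖Y + (ρ - 1)⁻¹ • κ‖ ≤ (p : ℝ) ^ (-(k0 + 1 : ℕ) : ℤ) := by
      refine add_le' hYn ((norm_smul_le _ _).trans ?_)
      rw [norm_inv, hρ1, inv_one, one_mul]
      exact hκn
    rw [norm_inv, hldY]
    calc ((p : ℝ) ^ (-(k0 + 1 : ℕ) : ℤ))⁻¹ * ‖Y + (ρ - 1)⁻¹ • κ‖ ≤
        ((p : ℝ) ^ (-(k0 + 1 : ℕ) : ℤ))⁻¹ * (p : ℝ) ^ (-(k0 + 1 : ℕ) : ℤ) :=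
        mul_le_mul_of_nonneg_left h1 (inv_nonneg.mpr (zpk_pos _).le)
      _ = 1 := inv_mul_cancel₀ (zpk_pos _).ne'
  refine ⟨e, ρ, hel, hej, he1, heT, hρn, hen, ?_⟩
  -- the deviation
  obtain ⟨K, hK⟩ : ∃ K : ℕ → Fin n → ℚ_[p], ∀ N, K N = X N - D.ld (X N) • e :=
    ⟨fun N => X N - D.ld (X N) • e, fun N => rfl⟩
  have hKn : ∀ N, ‖K N‖ ≤ (p : ℝ) ^ (-(k0 + N : ℕ) : ℤ) := by
    intro N
    rw [hK]
    refine sub_le' (hX N) ((norm_smul_le _ _).trans ?_)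
    rw [hld N]
    exact mul_le_of_le_one_right (zpk_pos _).le hen
  have hK0 : ∀ N, D.ld (K N) = 0 := by
    intro N
    rw [hK, ld_sub', ld_smul', he1, mul_one, sub_self]
  have hKs : ∀ N, ‖K (N + 1 + 1) - K (N + 1)‖ ≤ (p : ℝ) ^ (-(2 * (k0 + N : ℕ)) : ℤ) := by
    intro N
    set r : ℝ := (p : ℝ) ^ (-(2 * (k0 + N : ℕ)) : ℤ) with hr
    have hr0 : 0 ≤ r := (zpk_pos _).le
    have hphK : ∀ w, D.phi w (T (X N)) = 0 → D.phi w e = 0 → ‖w‖ ≤ 1 → ‖D.phi w (K (N + 1))‖ ≤ r := by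
      intro w h1 h2 hw
      rw [hK, Lin.phi_sub, Lin.phi_smul, h2, mul_zero, sub_zero]
      have := (phi_le D hqa hqb hqc hw (X (N + 1) - T (X N))).trans (hst N)
      rwa [Lin.phi_sub, h1, sub_zero] at this
    have h1 := hTfix (K (N + 1)) r hr0 (hK0 _) (hphK _ (hTl _) hel (hζ l))
      (hphK _ (hTj _) hej (hζ j))
    have h2 : ‖X (N + 1 + 1) - T (X (N + 1))‖ ≤ r :=
      (hst (N + 1)).trans (zpk_le (by push_cast; omega))
    -- leading coefficients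
    have h3 : T (X (N + 1)) = T (K (N + 1)) + (D.ld (X (N + 1)) * ρ) • e := by
      have : X (N + 1) = K (N + 1) + D.ld (X (N + 1)) • e := by
        rw [hK]
        abel
      conv_lhs => rw [this]
      rw [hTadd, hTsmul, heT, smul_smul]
    have h4 : ‖D.ld (X (N + 1 + 1)) - D.ld (X (N + 1)) * ρ‖ ≤ r := by
      have a1 : ‖D.ld (X (N + 1 + 1) - T (X (N + 1)))‖ ≤ r := (ld_le D hqa _).trans h2
      have a2 : ‖D.ld (T (K (N + 1)))‖ ≤ r := by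
        have := (ld_le D hqa _).trans h1
        rwa [ld_sub', hK0, sub_zero] at this
      have a3 : D.ld (X (N + 1 + 1)) - D.ld (X (N + 1)) * ρ =
          D.ld (X (N + 1 + 1) - T (X (N + 1))) + D.ld (T (K (N + 1))) := by
        rw [ld_sub', h3, ld_add', ld_smul', he1]
        ring
      rw [a3]
      exact add_le' a1 a2
    have h5 : K (N + 1 + 1) - K (N + 1) = (X (N + 1 + 1) - T (X (N + 1))) +
        (T (K (N + 1)) - K (N + 1)) - (D.ld (X (N + 1 + 1)) - D.ld (X (N + 1)) * ρ) • e := by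
      rw [h3, sub_smul, hK (N + 1 + 1)]
      abel
    rw [h5]
    refine sub_le' (add_le' h2 h1) ((norm_smul_le _ _).trans ?_)
    exact (mul_le_mul h4 hen (norm_nonneg _) hr0).trans (mul_one _).le
  have hKb : ∀ N, ‖K (N + 1)‖ ≤ (p : ℝ) ^ (-(2 * (k0 + N : ℕ)) : ℤ) := by
    intro N
    have h1 : ∀ M, ‖K (N + 1 + M) - K (N + 1)‖ ≤ (p : ℝ) ^ (-(2 * (k0 + N : ℕ)) : ℤ) := by
      intro M
      induction M with
      | zero =>
        rw [add_zero, sub_self, norm_zero]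
        exact (zpk_pos _).le
      | succ M ih =>
        have h2 := hKs (N + M)
        have e3 : N + M + 1 + 1 = N + 1 + (M + 1) := by ring
        have e4 : N + M + 1 = N + 1 + M := by ring
        rw [e3, e4] at h2
        exact tri_le (h2.trans (zpk_le (by push_cast; omega))) ih
    have h2 := h1 (2 * k0 + 2 * N)
    have h3 : ‖K (N + 1 + (2 * k0 + 2 * N))‖ ≤ (p : ℝ) ^ (-(2 * (k0 + N : ℕ)) : ℤ) :=
      (hKn _).trans (zpk_le (by push_cast; omega))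
    have := sub_le' h3 h2
    rwa [sub_sub_cancel] at this
  have hlim : Tendsto (fun N => (D.ld (X N))⁻¹ • X N - e) atTop (𝓝 0) := by
    rw [← tendsto_add_atTop_iff_nat 1]
    have hp1 : (1 : ℝ) < p := by exact_mod_cast (Fact.out : p.Prime).one_lt
    have hz : Tendsto (fun N : ℕ => (p : ℝ) ^ (-(k0 + N : ℕ) + 1 : ℤ)) atTop (𝓝 0) := by
      have h1 : Tendsto (fun N : ℕ => (p : ℝ) * ((p : ℝ)⁻¹) ^ (k0 + N)) atTop (𝓝 (p * 0)) :=
        ((tendsto_pow_atTop_nhds_zero_of_lt_one (by positivity) (inv_lt_one_of_one_lt₀ hp1)).comp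
          (tendsto_atTop_mono (fun N => Nat.le_add_left N k0) tendsto_id)).const_mul _
      rw [mul_zero] at h1
      refine h1.congr fun N => ?_
      rw [zpk_add, zpow_one, zpow_neg, zpow_natCast, inv_pow, mul_comm]
    refine squeeze_zero_norm (fun N => ?_) hz
    have hne : D.ld (X (N + 1)) ≠ 0 := by
      intro h
      have := hld (N + 1)
      rw [h, norm_zero] at this
      exact (zpk_pos _).ne this
    have h1 : (D.ld (X (N + 1)))⁻¹ • X (N + 1) - e = (D.ld (X (N + 1)))⁻¹ • K (N + 1) := by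
      rw [hK, smul_sub, smul_smul, inv_mul_cancel₀ hne, one_smul]
    rw [h1]
    refine (norm_smul_le _ _).trans ?_
    rw [norm_inv, hld (N + 1)]
    calc ((p : ℝ) ^ (-(k0 + (N + 1) : ℕ) : ℤ))⁻¹ * ‖K (N + 1)‖ ≤
        ((p : ℝ) ^ (-(k0 + (N + 1) : ℕ) : ℤ))⁻¹ * (p : ℝ) ^ (-(2 * (k0 + N : ℕ)) : ℤ) :=
        mul_le_mul_of_nonneg_left (hKb N) (inv_nonneg.mpr (zpk_pos _).le)
      _ = (p : ℝ) ^ (-(k0 + N : ℕ) + 1 : ℤ) := by
        rw [← zpow_neg, ← zpk_add]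
        congr 1
        push_cast
        ring
  have := hlim.add_const e
  simpa using this

end Pool.Agent.Helper24.HN
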