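import Pool.Agent.Helper24.HN.Path
import Pool.Agent.Helper24.HN.Eigen
import Pool.Agent.Helper45.HN.Limit

/-!
# Dynamics near a flop curve: the output
-/

namespace Pool.Agent.Helper24.HN

open Filter Topology

variable {p : ℕ} [Fact p.Prime] {n : ℕ}

variable {L : Loc p n} {J : Type} [DecidableEq J] {R : Ref L J} {M : Mems L R} {x1 : V p n}
  {ζ : J → ℤ_[p]}

theorem ok_jm (R : Ref L J) : Ok R R.j R.m := ⟨R.hjm, R.hyj.symm, R.hym.symm, Or.inl R.hjm⟩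

theorem ok_ml (R : Ref L J) : Ok R R.m R.l := ⟨R.hml, R.hym.symm, R.hyl.symm, Or.inr R.hlj⟩

theorem ok_lj (R : Ref L J) : Ok R R.l R.j := ⟨R.hlj, R.hyl.symm, R.hyj.symm, Or.inl R.hml.symm⟩

/-- The point after the involution over `y`, with a given parameter. -/
theorem LimData.last (h : LimData R M x1 ζ) {i b : J} {k N q : ℕ} (hq : 2 ≤ q) (hqk : q ≤ k)
    (hby : b ≠ R.y) {x : ℤ_[p] → V p n} (hx : St M i b k N x)
    (hc : ∀ z, ‖z - R.z b‖ ≤ (p : ℝ) ^ (-2 : ℤ) → ‖x z - x1‖ ≤ (p : ℝ) ^ (-q : ℤ))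
    (t : ℤ_[p]) (ht : ‖t‖ ≤ (p : ℝ) ^ (-q : ℤ)) :
    ∃ (X : V p n) (u : ℤ_[p]), M.Mem' N X u ∧
      ‖cst X - cst x1 - ((cst (x (ζ b)) - cst x1) - (t : ℚ_[p]) • (lin L x1 ζ).v b)‖ ≤
        (p : ℝ) ^ (-(2 * q) : ℤ) := by
  obtain ⟨hζb, h0⟩ := h.hζ b hby
  have h2 : (p : ℝ) ^ (-q : ℤ) ≤ (p : ℝ) ^ (-2 : ℤ) := zpk_le (by omega)
  have hk2 : (p : ℝ) ^ (-k : ℤ) ≤ (p : ℝ) ^ (-2 : ℤ) := zpk_le (by have := hx.hk; omega)
  have hroot : ∃ z, ‖z - R.z b‖ ≤ (p : ℝ) ^ (-2 : ℤ) ∧ t * L.kap (x z) z = L.psi (x z) z := by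
    obtain ⟨z, hz, hf, -⟩ := Pool.Agent.Helper45.XN.exists_root
      (fun z => L.psi (x z) z - t * L.kap (x z) z) (R.z b) ((p : ℝ) ^ (-2 : ℤ)) (zpk_pos _).le
      (fun z w hz hw => by
        have e : L.psi (x z) z - t * L.kap (x z) z - (L.psi (x w) w - t * L.kap (x w) w) =
            ((L.psi (x z) z - L.psi (x w) z) - t * (L.kap (x z) z - L.kap (x w) w)) +
              (z - w) * L.sl (x w) z w := by
          rw [← L.hsl (x w) z w]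
          ring
        have hs : ‖(z - w) * L.sl (x w) z w‖ = ‖z - w‖ := by
          rw [norm_mul, sl_unit R hby (hx.ball w hw) hz hw, mul_one]
        have hl := hx.lip z w hz hw
        have hl1 : ‖x z - x w‖ ≤ ‖z - w‖ :=
          hl.trans (mul_le_of_le_one_left (norm_nonneg _) (hk2.trans pow_two_le.le))
        have hsm : ‖(L.psi (x z) z - L.psi (x w) z) - t * (L.kap (x z) z - L.kap (x w) w)‖ ≤
            (p : ℝ) ^ (-2 : ℤ) * ‖z - w‖ := by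
          refine sub_le' ?_ ?_
          · exact (L.hpsi _ _ _).trans (hl.trans
              (mul_le_mul_of_nonneg_right hk2 (norm_nonneg _)))
          · refine mul_le' (ht.trans h2) ((L.hkap _ _ _ _).trans (max_le hl1 le_rfl))
        by_cases hzw : z = w
        · subst hzw
          simp
        · have h0 : 0 < ‖z - w‖ := norm_pos_iff.mpr (sub_ne_zero.mpr hzw)
          rw [e]
          refine norm_eq_of_sub_lt (b := (z - w) * L.sl (x w) z w) ?_ hs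
          rw [add_sub_cancel_right]
          exact hsm.trans_lt (mul_lt_of_lt_one_left h0 pow_two_le))
      (by
        refine sub_le' ?_ (mul_le_left (ht.trans h2))
        have h3 := L.hpsi (x (R.z b)) R.u0 (R.z b)
        rw [R.hpsi b hby, sub_zero] at h3
        exact h3.trans (hx.ball _ (by rw [sub_self, norm_zero]; exact (zpk_pos _).le)))
    exact ⟨z, hz, (sub_eq_zero.mp hf).symm⟩
  obtain ⟨z, hz, hzt⟩ := hroot
  refine ⟨x z - t • L.xi (x z) z, z, M.inv2 N (x z) z t (hx.ball z hz) (hx.mem z hz)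
    (kap_unit R hby (hx.ball z hz) hz) hzt, ?_⟩
  obtain ⟨h3, h4⟩ := lin_step hq hby h.h1 hz hζb h0 (hc z hz) ht hzt
  have e : cst (x z - t • L.xi (x z) z) - cst x1 - ((cst (x (ζ b)) - cst x1) -
      (t : ℚ_[p]) • (lin L x1 ζ).v b) =
      cst ((x z - x (ζ b)) - t • (L.xi (x z) z - L.xi x1 (ζ b))) := by
    have e5 : (lin L x1 ζ).v b = cst (L.xi x1 (ζ b)) := rfl
    rw [e5, cst_sub, cst_sub, cst_smul, cst_smul, cst_sub, cst_sub, smul_sub]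
    abel
  rw [e, cst_norm, kk]
  refine sub_le' ?_ (smul_le ht h4)
  refine (hx.lip z (ζ b) hz hζb).trans (mul_le_mul (zpk_le (by omega)) h3 (norm_nonneg _)
    (zpk_pos _).le)

/-- Convergence from estimates. -/
theorem tendsto_of_err {E : Type*} [NormedAddCommGroup E] {a : ℕ → E} {b : ℕ → E} {e : E}
    {c : ℕ → ℝ} (h : ∀ N, ‖a N - b N‖ ≤ c N) (hc : Tendsto c atTop (𝓝 0))
    (hb : Tendsto b atTop (𝓝 e)) : Tendsto a atTop (𝓝 e) := by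
  have h1 : Tendsto (fun N => a N - b N) atTop (𝓝 0) :=
    squeeze_zero_norm h hc
  have := h1.add hb
  simpa using this

theorem zpk_tendsto (k0 : ℕ) : Tendsto (fun N : ℕ => (p : ℝ) ^ (-(k0 + N : ℕ) : ℤ)) atTop (𝓝 0) := by
  have hp1 : (1 : ℝ) < p := by exact_mod_cast (Fact.out : p.Prime).one_lt
  have h1 : Tendsto (fun N : ℕ => ((p : ℝ)⁻¹) ^ (k0 + N)) atTop (𝓝 0) :=
    (tendsto_pow_atTop_nhds_zero_of_lt_one (by positivity) (inv_lt_one_of_one_lt₀ hp1)).comp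
      (tendsto_atTop_mono (fun N => Nat.le_add_left N k0) tendsto_id)
  refine h1.congr fun N => ?_
  rw [zpow_neg, zpow_natCast, inv_pow]

/-- Maps which do not increase distances preserve limits. -/
theorem tendsto_contr {f : (Fin n → ℚ_[p]) → Fin n → ℚ_[p]} (hf : ∀ X Y, ‖f X - f Y‖ ≤ ‖X - Y‖)
    {a : ℕ → Fin n → ℚ_[p]} {e : Fin n → ℚ_[p]} (h : Tendsto a atTop (𝓝 e)) :
    Tendsto (fun N => f (a N)) atTop (𝓝 (f e)) := by
  rw [tendsto_iff_norm_sub_tendsto_zero] at h ⊢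
  exact squeeze_zero (fun _ => norm_nonneg _) (fun N => hf _ _) h

/-- Scaling of the estimates. -/
theorem scale_le {q : ℕ} {c : ℚ_[p]} (hc : ‖c‖ = (p : ℝ) ^ (-q : ℤ)) {a b : Fin n → ℚ_[p]}
    (h : ‖a - b‖ ≤ (p : ℝ) ^ (-(2 * q) : ℤ)) : ‖c⁻¹ • a - c⁻¹ • b‖ ≤ (p : ℝ) ^ (-q : ℤ) := by
  rw [← smul_sub]
  refine (norm_smul_le _ _).trans ?_
  rw [norm_inv, hc]
  rw [kk] at h
  calc ((p : ℝ) ^ (-q : ℤ))⁻¹ * ‖a - b‖ ≤
      ((p : ℝ) ^ (-q : ℤ))⁻¹ * ((p : ℝ) ^ (-q : ℤ) * (p : ℝ) ^ (-q : ℤ)) :=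
      mul_le_mul_of_nonneg_left h (inv_nonneg.mpr (zpk_pos _).le)
    _ = (p : ℝ) ^ (-q : ℤ) := by
      rw [← mul_assoc, inv_mul_cancel₀ (zpk_pos _).ne', one_mul]

theorem ld_smul (D : Lin ℚ_[p] n J) (c : ℚ_[p]) (Z : Fin n → ℚ_[p]) :
    D.ld (c • Z) = c * D.ld Z := by
  simp only [Lin.ld, Pi.smul_apply, smul_eq_mul, Finset.mul_sum]
  exact Finset.sum_congr rfl fun i _ => by ring

/-- D6. The output. -/
theorem dyn (M : Mems L R) (hp : p ≠ 2) : ∃ (x1 : V p n) (ζ : J → ℤ_[p]) (e : Fin n → ℚ_[p])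
    (ρ : ℚ_[p]) (N0 : ℕ) (α : ℕ → ℚ_[p]),
    ‖x1 - R.u0‖ ≤ (p : ℝ) ^ (-2 : ℤ) ∧ L.A x1 = 0 ∧ L.B x1 = 0 ∧ L.C x1 = 0 ∧
    (∀ a, a ≠ R.y → ‖ζ a - R.z a‖ ≤ (p : ℝ) ^ (-2 : ℤ) ∧ L.psi x1 (ζ a) = 0) ∧
    (lin L x1 ζ).phi (ζ R.l) e = 0 ∧ (lin L x1 ζ).phi (ζ R.j) e = 0 ∧ (lin L x1 ζ).ld e = 1 ∧
    (lin L x1 ζ).Tp R.j [R.m, R.l, R.j] e = ρ • e ∧ ‖ρ‖ = (p : ℝ) ^ (-1 : ℤ) ∧
    (∀ N, α N ≠ 0) ∧ Tendsto α atTop (𝓝 0) ∧
    (∀ P, OkP R R.j P → ∀ s : ℤ_[p], ∃ (X : ℕ → V p n) (u : ℕ → ℤ_[p]),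
      (∀ N, M.Mem' (N0 + 3 * N + P.length) (X N) (u N)) ∧
      Tendsto (fun N => (α N)⁻¹ • (cst (X N) - cst x1)) atTop
        (𝓝 ((lin L x1 ζ).Tp R.j P e - (s : ℚ_[p]) • (lin L x1 ζ).v (lst R.j P)))) ∧
    (∀ P c, OkP R R.j P → Ok R (lst R.j P) c → ∀ w : ℤ_[p], ‖w - R.z c‖ ≤ (p : ℝ) ^ (-2 : ℤ) →
      ∃ X : ℕ → V p n, (∀ N, M.Mem (N0 + 3 * N + P.length + 1) (X N) w) ∧
      Tendsto (fun N => (α N)⁻¹ • (cst (X N) - cst x1)) atTop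
        (𝓝 ((lin L x1 ζ).T (lst R.j P) w ((lin L x1 ζ).Tp R.j P e)))) := by
  obtain ⟨x1, k0, N0, x, hk0, h1, hA, hB, hC, hst, hcl, hlk⟩ := Pool.Agent.Helper45.HN.limit M hp
  obtain ⟨ζ, hζ⟩ := exists_zeta (R := R) x1 h1
  have h : LimData R M x1 ζ := ⟨h1, hA, hB, hC, hζ⟩
  obtain ⟨hζj, hψj⟩ := hζ R.j R.hyj.symm
  obtain ⟨hζl, hψl⟩ := hζ R.l R.hyl.symm
  obtain ⟨hζm, hψm⟩ := hζ R.m R.hym.symm
  set D := lin L x1 ζ with hD
  set Y : ℕ → Fin n → ℚ_[p] := fun N => cst (x N (ζ R.j)) - cst x1 with hY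
  have hYn : ∀ N, ‖Y N‖ ≤ (p : ℝ) ^ (-(k0 + N : ℕ) : ℤ) := by
    intro N
    rw [hY]
    show ‖cst (x N (ζ R.j)) - cst x1‖ ≤ _
    rw [← cst_sub, cst_norm]
    exact hcl N _ hζj
  have hld : ∀ N, ‖D.ld (Y N)‖ = (p : ℝ) ^ (-(k0 + N : ℕ) : ℤ) := by
    intro N
    have e1 : D.ld (Y N) = ((L.dA x1 (x N (ζ R.j) - x1) : ℤ_[p]) : ℚ_[p]) := by
      rw [hY, hD]
      show (lin L x1 ζ).ld (cst (x N (ζ R.j)) - cst x1) = _
      rw [← cst_sub, lin_ld]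
    rw [e1]
    show ‖L.dA x1 (x N (ζ R.j) - x1)‖ = _
    have h2 := L.A_x' x1 (x N (ζ R.j))
    rw [hA, sub_zero, norm_sub_rev] at h2
    refine norm_eq_of_sub_lt (h2.trans_lt ?_) ((hst N).lead _ hζj)
    have h3 := hcl N _ hζj
    have h4 : (p : ℝ) ^ (-(k0 + N : ℕ) : ℤ) < 1 := by
      have := zpk_lt (p := p) (k := -((k0 + N : ℕ) : ℤ)) (l := 0) (by omega)
      rwa [zpow_zero] at this
    calc ‖x N (ζ R.j) - x1‖ ^ 2 = ‖x N (ζ R.j) - x1‖ * ‖x N (ζ R.j) - x1‖ := sq _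
      _ ≤ (p : ℝ) ^ (-(k0 + N : ℕ) : ℤ) * (p : ℝ) ^ (-(k0 + N : ℕ) : ℤ) :=
        mul_le_mul h3 h3 (norm_nonneg _) (zpk_pos _).le
      _ < (p : ℝ) ^ (-(k0 + N : ℕ) : ℤ) := mul_lt_of_lt_one_left (zpk_pos _) h4
  have hstep : ∀ N, ‖Y (N + 1) - D.Tp R.j [R.m, R.l, R.j] (Y N)‖ ≤
      (p : ℝ) ^ (-(2 * (k0 + N : ℕ)) : ℤ) := by
    intro N
    obtain ⟨x', x'', s1, l1, s2, l2, l3⟩ := hlk N
    have hq : 2 ≤ k0 + N := by omega
    obtain ⟨c1, t1⟩ := h.one hq le_rfl (hst N) s1 (ok_jm R) l1 (hcl N)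
    obtain ⟨c2, t2⟩ := h.one hq le_rfl s1 s2 (ok_ml R) l2 c1
    have s3 : St M R.l R.j (k0 + (N + 1)) (N0 + 3 * N + 2 + 1) (x (N + 1)) := by
      have := hst (N + 1)
      have e : N0 + 3 * (N + 1) = N0 + 3 * N + 2 + 1 := by ring
      rwa [e] at this
    obtain ⟨c3, t3⟩ := h.one (k := k0 + N + 1) hq (Nat.le_succ _) s2 s3 (ok_lj R) l3 c2
    have u1 := t1 (ζ R.m) hζm
    have u2 := t2 (ζ R.l) hζl
    have u3 := t3 (ζ R.j) hζj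
    have v1 : ‖D.T R.l (ζ R.j) (cst (x'' (ζ R.l)) - cst x1) -
        D.T R.l (ζ R.j) (D.T R.m (ζ R.l) (cst (x' (ζ R.m)) - cst x1))‖ ≤
        (p : ℝ) ^ (-(2 * (k0 + N : ℕ)) : ℤ) := by
      rw [← Lin.T_sub]
      exact (h.T_le (ok_lj R) hζj _).trans u2
    have v2 : ‖D.T R.l (ζ R.j) (D.T R.m (ζ R.l) (cst (x' (ζ R.m)) - cst x1)) -
        D.T R.l (ζ R.j) (D.T R.m (ζ R.l) (D.T R.j (ζ R.m) (Y N)))‖ ≤
        (p : ℝ) ^ (-(2 * (k0 + N : ℕ)) : ℤ) := by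
      rw [← Lin.T_sub, ← Lin.T_sub]
      exact (h.T_le (ok_lj R) hζj _).trans ((h.T_le (ok_ml R) hζl _).trans u1)
    exact tri_le u3 (tri_le v1 v2)
  have hphi : ∀ a, a ≠ R.y → D.phi (ζ a) (D.v a) = 0 := by
    intro a ha
    have e : D.v a = cst (L.xi x1 (ζ a)) := rfl
    rw [e, hD, lin_phi, M.rel x1 (ζ a) h1 hA hB hC, (hζ a ha).2]
    rfl
  have hlj' : ‖(ζ R.l : ℚ_[p]) - (ζ R.j : ℚ_[p])‖ = 1 := by
    rw [← PadicInt.coe_sub]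
    show ‖ζ R.l - ζ R.j‖ = 1
    refine norm_eq_of_sub_lt (b := R.z R.l - R.z R.j) ?_ (R.hz _ _ R.hlj)
    have e : ζ R.l - ζ R.j - (R.z R.l - R.z R.j) = (ζ R.l - R.z R.l) - (ζ R.j - R.z R.j) := by ring
    rw [e]
    exact (sub_le' hζl hζj).trans_lt pow_two_le
  obtain ⟨e, ρ, hel, hej, he1, heT, hρ, -, hlim⟩ := eigen D R.j R.m R.l
    (fun _ => coe_le _) (fun _ => coe_le _) (fun _ => coe_le _) (fun _ => coe_le _)
    (fun a => by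
      have e : D.v a = cst (L.xi x1 (ζ a)) := rfl
      rw [e, cst_norm]
      exact norm_le_one_V _)
    (hphi _ R.hyj.symm) (hphi _ R.hym.symm) (hphi _ R.hyl.symm) (h.unit (ok_jm R) hζm)
    (h.unit (ok_ml R) hζl) (h.unit (ok_lj R) hζj) hlj' k0 hk0 Y hYn hld hstep
  have hα0 : ∀ N, D.ld (Y N) ≠ 0 := by
    intro N h0
    have := hld N
    rw [h0, norm_zero] at this
    exact (zpk_pos _).ne this
  have hαt : Tendsto (fun N => D.ld (Y N)) atTop (𝓝 0) := by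
    refine squeeze_zero_norm (fun N => (hld N).le) (zpk_tendsto k0)
  refine ⟨x1, ζ, e, ρ, N0, fun N => D.ld (Y N), h1, hA, hB, hC, hζ, hel, hej, he1, heT, hρ, hα0,
    hαt, ?_, ?_⟩
  · intro P hP s
    have hex : ∀ N, ∃ (X : V p n) (u : ℤ_[p]), M.Mem' (N0 + 3 * N + P.length) X u ∧
        ‖cst X - cst x1 - (D.Tp R.j P (Y N) - ((D.ld (Y N)) * (s : ℚ_[p])) • D.v (lst R.j P))‖ ≤
          (p : ℝ) ^ (-(2 * (k0 + N : ℕ)) : ℤ) := by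
      intro N
      obtain ⟨i', k', x', hs, hk', hy', hc', herr⟩ := h.run P (q := k0 + N) (by omega) le_rfl
        (hst N) hP R.hyj.symm (hcl N)
      have ht : ‖L.dA x1 (x N (ζ R.j) - x1) * s‖ ≤ (p : ℝ) ^ (-(k0 + N : ℕ) : ℤ) :=
        mul_le_left ((lin_le _ _).trans (hcl N _ hζj))
      obtain ⟨X, u, hm, hX⟩ := h.last (q := k0 + N) (by omega) hk' hy' hs hc' _ ht
      refine ⟨X, u, hm, ?_⟩
      have e1 : D.ld (Y N) = ((L.dA x1 (x N (ζ R.j) - x1) : ℤ_[p]) : ℚ_[p]) := by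
        rw [hY, hD]
        show (lin L x1 ζ).ld (cst (x N (ζ R.j)) - cst x1) = _
        rw [← cst_sub, lin_ld]
      rw [PadicInt.coe_mul, ← e1] at hX
      refine tri_le hX ?_
      rw [sub_sub_sub_cancel_right]
      exact herr
    choose X u hm hX using hex
    refine ⟨X, u, hm, ?_⟩
    have h5 : ∀ N, ‖(D.ld (Y N))⁻¹ • (cst (X N) - cst x1) - (D.Tp R.j P ((D.ld (Y N))⁻¹ • Y N) -
        (s : ℚ_[p]) • D.v (lst R.j P))‖ ≤ (p : ℝ) ^ (-(k0 + N : ℕ) : ℤ) := by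
      intro N
      have h6 := scale_le (hld N) (hX N)
      have e4 : (D.ld (Y N))⁻¹ • (D.Tp R.j P (Y N) - ((D.ld (Y N)) * (s : ℚ_[p])) •
          D.v (lst R.j P)) = D.Tp R.j P ((D.ld (Y N))⁻¹ • Y N) - (s : ℚ_[p]) •
            D.v (lst R.j P) := by
        rw [smul_sub, Lin.Tp_smul, smul_smul, ← mul_assoc, inv_mul_cancel₀ (hα0 N), one_mul]
      rw [e4] at h6
      exact h6
    have h6 := tendsto_contr (f := D.Tp R.j P) (fun A B => by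
      rw [← Lin.Tp_sub]
      exact h.Tp_le P _ hP _) hlim
    exact tendsto_of_err h5 (zpk_tendsto k0) (h6.sub_const ((s : ℚ_[p]) • D.v (lst R.j P)))
  · intro P c hP hok w hw
    have hex : ∀ N, ∃ X : V p n, M.Mem (N0 + 3 * N + P.length + 1) X w ∧
        ‖cst X - cst x1 - D.T (lst R.j P) w (D.Tp R.j P (Y N))‖ ≤
          (p : ℝ) ^ (-(2 * (k0 + N : ℕ)) : ℤ) := by
      intro N
      obtain ⟨i', k', x', hs, hk', hy', hc', herr⟩ := h.run P (q := k0 + N) (by omega) le_rfl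
        (hst N) hP R.hyj.symm (hcl N)
      obtain ⟨x2, hx2, hl⟩ := Pool.Agent.Helper69.HN.step M hs hok hs.hib
      obtain ⟨-, h3⟩ := h.one (q := k0 + N) (by omega) hk' hs hx2 hok hl hc'
      refine ⟨x2 w, hx2.mem w hw, tri_le (h3 w hw) ?_⟩
      rw [← Lin.T_sub]
      exact (h.T_le hok hw _).trans herr
    choose X hm hX using hex
    refine ⟨X, hm, ?_⟩
    have h5 : ∀ N, ‖(D.ld (Y N))⁻¹ • (cst (X N) - cst x1) -
        D.T (lst R.j P) w (D.Tp R.j P ((D.ld (Y N))⁻¹ • Y N))‖ ≤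
          (p : ℝ) ^ (-(k0 + N : ℕ) : ℤ) := by
      intro N
      have h6 := scale_le (hld N) (hX N)
      rw [← Lin.T_smul, ← Lin.Tp_smul] at h6
      exact h6
    exact tendsto_of_err h5 (zpk_tendsto k0)
      (tendsto_contr (f := fun Z => D.T (lst R.j P) w (D.Tp R.j P Z)) (fun A B => by
        show ‖D.T (lst R.j P) w (D.Tp R.j P A) - D.T (lst R.j P) w (D.Tp R.j P B)‖ ≤ _
        rw [← Lin.T_sub, ← Lin.Tp_sub]
        exact (h.T_le hok hw _).trans (h.Tp_le P _ hP _)) hlim)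

end Pool.Agent.Helper24.HN
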