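import Pool.Agent.Helper24.HN.Defs

/-!
# Dynamics near a flop curve: the pieces
-/

namespace Pool.Agent.Helper24.HN.Frame

open Pool.Agent.Helper24.HN Filter Topology

variable {p : ℕ} [Fact p.Prime] {n : ℕ}

/-- D1a (helper45). Approximate zeros of functions of unit slope on a ball.
Proof: Banach fixed point or the sequence `z ↦ z - f z / c`. -/
theorem ball_root (f : ℤ_[p] → ℤ_[p]) (a c : ℤ_[p]) (hc : ‖c‖ = 1)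
    (h0 : ‖f a‖ ≤ (p : ℝ) ^ (-2 : ℤ))
    (hs : ∀ z w, ‖z - a‖ ≤ (p : ℝ) ^ (-2 : ℤ) → ‖w - a‖ ≤ (p : ℝ) ^ (-2 : ℤ) →
      ‖f z - f w - c * (z - w)‖ ≤ (p : ℝ) ^ (-1 : ℤ) * ‖z - w‖) :
    ∃ z, ‖z - a‖ ≤ (p : ℝ) ^ (-2 : ℤ) ∧ f z = 0 := by
  sorry

/-- D1b (helper45). Polynomials are Lipschitz. -/
theorem poly_lip {σ : Type*} [Fintype σ] (P : MvPolynomial σ ℤ_[p]) (x x' : σ → ℤ_[p]) :
    ‖MvPolynomial.eval x P - MvPolynomial.eval x' P‖ ≤ ‖x - x'‖ := by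
  sorry

/-- D1c (helper45). Second order. -/
theorem poly_lip2 {σ : Type*} [Fintype σ] (P : MvPolynomial σ ℤ_[p]) (x h : σ → ℤ_[p]) :
    ‖MvPolynomial.eval (x + h) P - MvPolynomial.eval x P -
      ∑ i, MvPolynomial.eval x (MvPolynomial.pderiv i P) * h i‖ ≤ ‖h‖ ^ 2 := by
  sorry

variable {L : Loc p n} {J : Type} [DecidableEq J] {R : Ref L J} (M : Mems L R)

/-- D2 (helper69). One step.
Proof. For `w` near `z c` let `H z = F (x z - t z • xi (x z) z) w`, `t z = psi / kap`.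
On the ball about `z b`: `t z - t z' = s0 (z - z') + O(p^-2 |z - z'|)`, `s0 = sl / kap` at `u0, z b`;
`H z - H z' = - s0 * dF u0 (xi u0 (z b)) (z c) * (z - z') + O(p^-2 |z - z'|)`; `|H (z b)| ≤ p^-2`:
`ball_root`. Let `x' w = X' = X - t xi`, `X = x z`, with this `z`. By `inv2`, `on'` one has
`F X' z = 0 = F X' w`, so `F X' v = A X' (v - w) (v - z)`: the new other root is `z`.
`A X (w - z) (w - r) = t (dF X xi w + O(t))` so `|t| ≤ |A X|`, and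
`A X' (r - w) (r - z) = - t (dF X xi r + O(t))`; if `r = w` then `t = 0`, `X' = X`; if not then
`|A X'| = |A X| |dF X xi r| = |A X| |Th i b|`. Lipschitz: `|z - z'| = |H_w z - H_w z'| =
|F X'_(w') w| = |A X'_(w')| |w - w'|` for the solutions `z`, `z'` of `w`, `w'`. -/
theorem step {i b c : J} {k N : ℕ} {x : ℤ_[p] → V p n} (h : St M i b k N x) (hib : Ok R b c)
    (hi : i ≠ b) : ∃ x', St M b c (k + ex R i b) (N + 1) x' ∧ Link R k b c x x' := by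
  sorry

/-- D3 (helper45). The first graph. Proof: solve `F (u0 + t • xi_y) w = 0` for `t`: the slope is
`dF u0 xi_y (z j)`; the other root is `z y` (`line`). -/
theorem start : ∃ x, St M R.y R.j 2 0 x := by
  sorry

/-- D4. Linearisation at `x1`. -/
theorem linear {i b c : J} {k N k' : ℕ} {x x' : ℤ_[p] → V p n} (h : St M i b k N x)
    (h' : St M b c k' (N + 1) x') (hb : Ok R b c) (hl : Link R k b c x x') (x1 : V p n)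
    (h1 : ‖x1 - R.u0‖ ≤ (p : ℝ) ^ (-2 : ℤ)) (hA : L.A x1 = 0) (hB : L.B x1 = 0) (hC : L.C x1 = 0)
    (ζ : J → ℤ_[p]) (hζ : ∀ a, a ≠ R.y → ‖ζ a - R.z a‖ ≤ (p : ℝ) ^ (-2 : ℤ) ∧ L.psi x1 (ζ a) = 0)
    (hx : ∀ z, ‖z - R.z b‖ ≤ (p : ℝ) ^ (-2 : ℤ) → ‖x z - x1‖ ≤ (p : ℝ) ^ (-k : ℤ))
    (w : ℤ_[p]) (hw : ‖w - R.z c‖ ≤ (p : ℝ) ^ (-2 : ℤ)) :
    ‖cst (x' w) - cst x1 - (lin L x1 ζ).T b w (cst (x (ζ b)) - cst x1)‖ ≤
      (p : ℝ) ^ (-(2 * k) : ℤ) := by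
  sorry

/-- D6. The output. -/
theorem dyn : ∃ (x1 : V p n) (ζ : J → ℤ_[p]) (e : Fin n → ℚ_[p]) (ρ : ℚ_[p]) (N0 : ℕ)
    (α : ℕ → ℚ_[p]),
    ‖x1 - R.u0‖ ≤ (p : ℝ) ^ (-2 : ℤ) ∧ L.A x1 = 0 ∧ L.B x1 = 0 ∧ L.C x1 = 0 ∧
    (∀ a, a ≠ R.y → ‖ζ a - R.z a‖ ≤ (p : ℝ) ^ (-2 : ℤ) ∧ L.psi x1 (ζ a) = 0) ∧
    (lin L x1 ζ).phi (ζ R.l) e = 0 ∧ (lin L x1 ζ).phi (ζ R.j) e = 0 ∧ (lin L x1 ζ).ld e = 1 ∧
    (lin L x1 ζ).Tp R.j [R.m, R.l, R.j] e = ρ • e ∧ ‖ρ‖ = (p : ℝ) ^ (-1 : ℤ) ∧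
    (∀ N, α N ≠ 0) ∧ Tendsto α atTop (𝓝 0) ∧
    (∀ P, OkP R R.j P → ∀ s : ℤ_[p], ∃ (X : ℕ → V p n) (u : ℕ → ℤ_[p]),
      (∀ N, M.Mem' (N0 + 3 * N + P.length) (X N) (u N)) ∧
      Tendsto (fun N => (α N)⁻¹ • (cst (X N) - cst x1)) atTop
        (𝓝 ((lin L x1 ζ).Tp R.j P e - (s : ℚ_[p]) • (lin L x1 ζ).v (lst R.j P)))) ∧
    (∀ P c, OkP R R.j P → Ok R (lst R.j P) c → ∀ w : ℤ_[p], ‖w - R.z c‖ ≤ (p : ℝ) ^ (-2 : ℤ) →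
      ∃ X : ℕ → V p n, (∀ N, M.Mem (N0 + 3 * N + P.length + 1) (X N) w) ∧
      Tendsto (fun N => (α N)⁻¹ • (cst (X N) - cst x1)) atTop
        (𝓝 ((lin L x1 ζ).T (lst R.j P) w ((lin L x1 ζ).Tp R.j P e)))) := by
  sorry

end Pool.Agent.Helper24.HN.Frame
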