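import Pool.Agent.Helper24.HN.Linear

/-!
# Dynamics near a flop curve: the pieces D5
-/

namespace Pool.Agent.Helper24.HN.Frame2

open Pool.Agent.Helper24.HN Filter Topology

variable {p : ℕ} [Fact p.Prime] {n : ℕ}

/-- D5a (helper45). The periodic path `j → m → l → j` and its limit. Proof: `start`, then `step`
three times gives the state `x 0` with `k0 = 3`, `N0 = 3`; then recursion, three steps each time,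
`ex l j = 0`, `ex j m = 1`, `ex m l = 0`. By `Link` all later graphs are within `p ^ (- k)` of
`x N z`, so the values at `z j` are a Cauchy sequence; `x1` is the limit. `F (x N z) v` has norm at
most `p ^ (- k)`, so `F x1 v = 0` for all `v`, take `v = 0, 1, -1` (2 is a unit: `hp`). -/
theorem limit {L : Loc p n} {J : Type} [DecidableEq J] {R : Ref L J} (M : Mems L R) (hp : p ≠ 2) :
    ∃ (x1 : V p n) (k0 N0 : ℕ) (x : ℕ → ℤ_[p] → V p n), 3 ≤ k0 ∧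
      ‖x1 - R.u0‖ ≤ (p : ℝ) ^ (-2 : ℤ) ∧ L.A x1 = 0 ∧ L.B x1 = 0 ∧ L.C x1 = 0 ∧
      (∀ N, St M R.l R.j (k0 + N) (N0 + 3 * N) (x N)) ∧
      (∀ N z, ‖z - R.z R.j‖ ≤ (p : ℝ) ^ (-2 : ℤ) →
        ‖x N z - x1‖ ≤ (p : ℝ) ^ (-(k0 + N : ℕ) : ℤ)) ∧
      ∀ N, ∃ x' x'' : ℤ_[p] → V p n, St M R.j R.m (k0 + N) (N0 + 3 * N + 1) x' ∧
        Link R (k0 + N) R.j R.m (x N) x' ∧ St M R.m R.l (k0 + N + 1) (N0 + 3 * N + 2) x'' ∧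
        Link R (k0 + N) R.m R.l x' x'' ∧ Link R (k0 + N + 1) R.l R.j x'' (x (N + 1)) := by
  sorry

/-- D5b (helper66). The eigenvector and the direction of the periodic path.
Proof. `T = D.Tp j [m, l, j]` is linear, `‖T X‖ ≤ ‖X‖`, and `T X` is in
`H = {phi (ζ l) = 0 = phi (ζ j)}` for all `X`. For `X` in `H` one has
`phi w X = ld X * (w - ζ l) * (w - ζ j)`, so `T X = X` if `X` is in `H` and `ld X = 0`.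
Let `Y = T (X 0)`: `‖Y - X 1‖ ≤ p^(-2 k0)`, so `‖ld Y‖ = p^(-k0-1)`, `‖ld (T Y)‖ = p^(-k0-2)` and
`‖Y‖ ≤ p^(-k0-1)`. Put `ρ = ld (T Y) / ld Y`, `κ = T Y - ρ • Y` (in `H`, `ld κ = 0`, `T κ = κ`),
`e = (ld Y)⁻¹ • (Y + (ρ - 1)⁻¹ • κ)`; `‖e‖ ≤ 1`. Let `a N = ld (X N)`, `K N = X N - a N • e`:
`ld (K N) = 0`, and for `N ≥ 1` the forms `phi w (K N)`, `‖w‖ ≤ 1`, are `O(p^(-2 (k0 + N - 1)))`,
so `T (K N) = K N + O(p^(-2 (k0 + N - 1)))`, `K (N + 1) = K N + O(p^(-2 (k0 + N - 1)))`.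
As `K N → 0` one has `‖K N‖ ≤ p^(-2 (k0 + N - 1))`, which is `o(‖a N‖)`. -/
theorem eigen {J : Type} (D : Lin ℚ_[p] n J) (j m l : J) (hqa : ∀ i, ‖D.qa i‖ ≤ 1)
    (hqb : ∀ i, ‖D.qb i‖ ≤ 1) (hqc : ∀ i, ‖D.qc i‖ ≤ 1) (hζ : ∀ a, ‖D.ζ a‖ ≤ 1)
    (hv : ∀ a, ‖D.v a‖ ≤ 1) (hj : D.phi (D.ζ j) (D.v j) = 0) (hm : D.phi (D.ζ m) (D.v m) = 0)
    (hl : D.phi (D.ζ l) (D.v l) = 0) (hjm : ‖D.phi (D.ζ m) (D.v j)‖ = 1)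
    (hml : ‖D.phi (D.ζ l) (D.v m)‖ = 1) (hlj : ‖D.phi (D.ζ j) (D.v l)‖ = 1)
    (hlj' : ‖D.ζ l - D.ζ j‖ = 1) (k0 : ℕ) (hk : 3 ≤ k0) (X : ℕ → Fin n → ℚ_[p])
    (hX : ∀ N, ‖X N‖ ≤ (p : ℝ) ^ (-(k0 + N : ℕ) : ℤ))
    (hld : ∀ N, ‖D.ld (X N)‖ = (p : ℝ) ^ (-(k0 + N : ℕ) : ℤ))
    (hst : ∀ N, ‖X (N + 1) - D.Tp j [m, l, j] (X N)‖ ≤ (p : ℝ) ^ (-(2 * (k0 + N : ℕ)) : ℤ)) :
    ∃ (e : Fin n → ℚ_[p]) (ρ : ℚ_[p]), D.phi (D.ζ l) e = 0 ∧ D.phi (D.ζ j) e = 0 ∧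
      D.ld e = 1 ∧ D.Tp j [m, l, j] e = ρ • e ∧ ‖ρ‖ = (p : ℝ) ^ (-1 : ℤ) ∧ ‖e‖ ≤ 1 ∧
      Tendsto (fun N => (D.ld (X N))⁻¹ • X N) atTop (𝓝 e) := by
  sorry

end Pool.Agent.Helper24.HN.Frame2
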